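import Mathlib
import Pool.Agent.V11161.BF.Orbit

set_option autoImplicit false

/-!
# Primes in the orbits of `x ↦ 2 x - 1` at almost all vectors of times of a Bohr set

Let `S x = a + d x`; for `a = -1`, `d = 2` the primes `q, S q, S (S q), …` form a chain of the second
kind. For every `k` and `η > 0` there are `W`, `r`, `ρ, b > 0`, `C` and `X₀`, the same for all
coprime `a ≠ 0` and `d ≥ 1`, such that for every `X ≥ X₀` there are frequencies `θ_1, …, θ_r` with
the following property. Let `B` be the Bohr set of the times `1 ≤ h ≤ X` for which all the numbers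
`h θ_j` are close to integers, `|exp (2 π i h θ_j) - 1| ≤ ρ`; it has at least `b X` elements.
At least `(1 - η) |B| ^ k` of the vectors `(h_1, …, h_k)` in `B ^ k` consist of distinct numbers
and are such that for arbitrarily large `N`, the same for all these vectors, at least
`N / (log N) ^ C` primes `q ≤ N` have PRIME iterates `S ^ (W h_1) q, …, S ^ (W h_k) q`.

Proof. The theorem on clusters for linear forms (`Pool.Agent.V11161.CL`) is applied to the forms of
the iterates `S ^ (W u)`, `u ≤ X`, with `W = z!`; they have no common divisor `p ≤ z` at `n = 1`. It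
gives a set `U` of more than a quarter of the times up to `X` such that almost all
`(k + 1)`-tuples of `U` are simultaneously times of primes, and almost all vectors of a Bohr set are
the differences of such tuples (`Pool.Agent.V11161.BF`, energy increment modulo `2 X + 1`).
-/

namespace Pool.Agent.Results.MP_9f2731_nt.BohrSetsOfTimes

open Filter Finset

/-- the map `x ↦ a + d x` -/
def step (a d x : ℤ) : ℤ := a + d * x

/-- the Bohr set of the frequencies `θ_j`, of radius `ρ`, in the interval from `1` to `X` -/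
def bohrPos {r : ℕ} (θ : Fin r → ℝ) (ρ : ℝ) (X : ℕ) : Set ℕ :=
  {h : ℕ | 1 ≤ h ∧ h ≤ X ∧ ∀ j, ‖Complex.exp (2 * Real.pi * Complex.I * (h * θ j)) - 1‖ ≤ ρ}

theorem result (k : ℕ) (η : ℝ) (hη : 0 < η) :
    ∃ (W r C X₀ : ℕ) (ρ b : ℝ), 0 < W ∧ 0 < ρ ∧ 0 < b ∧
      ∀ a d : ℤ, a ≠ 0 → 1 ≤ d → IsCoprime a d → ∀ X : ℕ, X₀ ≤ X →
        ∃ (θ : Fin r → ℝ) (H : Finset (Fin k → ℕ)),
          b * X ≤ ((bohrPos θ ρ X).ncard : ℝ) ∧
          (∀ h ∈ H, (∀ i, h i ∈ bohrPos θ ρ X) ∧ Function.Injective h) ∧
          (1 - η) * ((bohrPos θ ρ X).ncard : ℝ) ^ k ≤ (H.card : ℝ) ∧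
          ∃ᶠ N : ℕ in atTop, ∀ h ∈ H, (N : ℝ) / (Real.log N) ^ C ≤
            ({q : ℕ | q ≤ N ∧ q.Prime ∧
              ∀ i, ((step a d)^[W * h i] (q : ℤ)).toNat.Prime}.ncard : ℝ) :=
  Pool.Agent.V11161.BF.orbitTuples k η hη

end Pool.Agent.Results.MP_9f2731_nt.BohrSetsOfTimes
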