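import Pool.Agent.V11249.NP.Reg
import Pool.Agent.V11249.NP.Fam

/-!
# Cunningham chains of the second kind of almost primes: regular windows in all short intervals

For every length `l` (and every base `g ≥ 2`, the case of the question being `g = 2`) consider the chains
`p ↦ g p - (g - 1)`: with `p = m + 1` the terms are `g ^ i m + 1`. In every interval `(X, X + Y]` with `X ^ θ ≤ Y ≤ X`
at least `κ Y` of the integers `x` are regular: every window `(a, b]` around `x` of length between `K log ^ l X` and `Y`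
contains the right order of integers `m` for which all the terms `g ^ i m + 1`, `i < l`, are almost primes; moreover, at
all but boundedly many dyadic scales these `m` have a constant density around `x`, up to an error `δ`.
-/

set_option autoImplicit false

open Finset Filter Polynomial

namespace Pool.Agent.Results.MP_9f2731_nt.RegularWindows

/-- the chain of almost primes which starts at `p = m + 1`: the `l` terms `g ^ i m + 1 = g ^ i (p - 1) + 1` have at most
`r` prime factors (with multiplicity), all of them larger than `z` -/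
def AlmostChain (g l r : ℕ) (z : ℝ) (m : ℕ) : Prop :=
  ∀ i < l, (g ^ i * m + 1).primeFactorsList.length ≤ r ∧ ∀ p : ℕ, p.Prime → p ∣ g ^ i * m + 1 → z < p

open Classical in
/-- the number of such `m` in `(a, b]`, all prime factors being larger than `X ^ (1 / r)` -/
noncomputable def cnt (g l r X a b : ℕ) : ℕ :=
  ((Ioc a b).filter (fun m => AlmostChain g l r ((X : ℝ) ^ (1 / (r : ℝ))) m)).card

/-- all windows `(a, b]` around `x`, of length between `K log ^ l X` and `Y`, contain the right order of such `m` -/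
def Regular (g l r : ℕ) (c₁ c₂ K : ℝ) (X Y x : ℕ) : Prop :=
  ∀ a b : ℕ, a ≤ x → x ≤ b → K * Real.log X ^ l ≤ (b : ℝ) - a → (b : ℝ) - a ≤ Y →
    c₁ * ((b : ℝ) - a) / Real.log X ^ l ≤ (cnt g l r X a b : ℝ) ∧
    (cnt g l r X a b : ℝ) ≤ c₂ * ((b : ℝ) - a) / Real.log X ^ l

/-- the density is constant on `[x - 2 ^ j, x + 2 ^ j]`, up to `δ` -/
def Constant (g l r : ℕ) (c₁ c₂ δ : ℝ) (X x j : ℕ) : Prop :=
  ∃ lam : ℝ, c₁ ≤ lam ∧ lam ≤ c₂ ∧ ∀ u v : ℕ, x ≤ u + 2 ^ j → u ≤ v → v ≤ x + 2 ^ j →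
    |(cnt g l r X u v : ℝ) - lam * ((v : ℝ) - u) / Real.log X ^ l| ≤ δ * 2 ^ j / Real.log X ^ l

open Classical in
/-- the number of the scales `2 ^ j` between `log ^ l X` and `Y` at which the density is not constant -/
noncomputable def badScales (g l r : ℕ) (c₁ c₂ δ : ℝ) (X Y x : ℕ) : ℕ :=
  ((range (Nat.log 2 Y + 1)).filter (fun j => Real.log X ^ l ≤ (2 : ℝ) ^ j ∧ ¬ Constant g l r c₁ c₂ δ X x j)).card

/-- the system -/
noncomputable def F (g l : ℕ) : Fin l → ℤ[X] := fun i => Pool.Agent.TH464.PW.quad 0 ((g : ℤ) ^ (i : ℕ)) 1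

theorem Fe (g l : ℕ) (i : Fin l) : F g l i = C ((g : ℤ) ^ (i : ℕ)) * X + C (1 : ℤ) := by
  unfold F Pool.Agent.TH464.PW.quad
  simp

theorem ev (g l : ℕ) (i : Fin l) (m : ℕ) : (F g l i).eval (m : ℤ) = ((g ^ (i : ℕ) * m + 1 : ℕ) : ℤ) := by
  rw [Fe]
  simp

theorem sys {g l : ℕ} (hg : 2 ≤ g) : Pool.Agent.W123.RU.Poly.Sys (F g l) := by
  have h0 : ∀ i : ℕ, (0 : ℤ) < (g : ℤ) ^ i := fun i => by positivity
  refine ⟨fun i => ?_, fun i => ?_, fun i => ?_, fun i j hij => ?_, fun p hp => ⟨0, fun i hd => ?_⟩⟩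
  · exact Pool.Agent.V11249.NP.lin_irr _ _ (h0 i).ne' (by simp)
  · rw [Fe, natDegree_linear (h0 i).ne']
    norm_num
  · rw [Fe, leadingCoeff_linear (h0 i).ne']
    exact h0 i
  · have h1 : (F g l i).eval ((1 : ℕ) : ℤ) = (F g l j).eval ((1 : ℕ) : ℤ) := by rw [hij]
    rw [ev, ev] at h1
    have h2 : g ^ (i : ℕ) * 1 + 1 = g ^ (j : ℕ) * 1 + 1 := by exact_mod_cast h1
    exact Fin.ext (Nat.pow_right_injective hg (by simpa using h2))
  · rw [ev] at hd
    have hd' : p ∣ g ^ (i : ℕ) * 0 + 1 := Int.natCast_dvd_natCast.1 hd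
    rw [mul_zero, zero_add] at hd'
    exact hp.one_lt.ne' (Nat.dvd_one.1 hd')

theorem iff_almost (g l r : ℕ) (z : ℝ) (m : ℕ) :
    AlmostChain g l r z m ↔ Pool.Agent.TH464.PW.Almost (F g l) r z m := by
  unfold AlmostChain Pool.Agent.TH464.PW.Almost
  constructor
  · intro h i
    obtain ⟨h1, h2⟩ := h i i.isLt
    rw [ev, Int.natAbs_natCast]
    exact ⟨h1, fun p hp hd => h2 p hp (Int.natCast_dvd_natCast.1 hd)⟩
  · intro h i hi
    obtain ⟨h1, h2⟩ := h ⟨i, hi⟩
    rw [ev, Int.natAbs_natCast] at h1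
    refine ⟨h1, fun p hp hd => h2 p hp ?_⟩
    rw [ev]
    exact Int.natCast_dvd_natCast.2 hd

open Classical in
/-- **Regular windows for chains of the second kind.** For `g ≥ 2`, every length `l ≥ 1` and `0 < θ ≤ 1` there are `r` and
`c₁, c₂, K, κ > 0` such that for every `δ > 0` there is `B` such that for all large `X` and all `X ^ θ ≤ Y ≤ X`: at
least `κ Y` of the `x` in `(X, X + Y]` are regular and have at most `B` scales at which the density is not constant up
to `δ`. -/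
theorem result (g l : ℕ) (hg : 2 ≤ g) (hl : 1 ≤ l) (θ : ℝ) (hθ : 0 < θ) (hθ1 : θ ≤ 1) :
    ∃ (r : ℕ) (c₁ c₂ K κ : ℝ), 0 < c₁ ∧ 0 < c₂ ∧ 0 < K ∧ 0 < κ ∧ ∀ δ : ℝ, 0 < δ → ∃ B : ℕ,
      ∀ᶠ X : ℕ in atTop, ∀ Y : ℕ, (X : ℝ) ^ θ ≤ Y → Y ≤ X →
        κ * Y ≤ (((Ioc X (X + Y)).filter (fun x =>
          Regular g l r c₁ c₂ K X Y x ∧ badScales g l r c₁ c₂ δ X Y x ≤ B)).card : ℝ) :=
  Pool.Agent.V11249.NP.reg_win (g := l) (by omega) (F g l) (sys hg) (AlmostChain g l) (iff_almost g l) θ hθ hθ1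

end Pool.Agent.Results.MP_9f2731_nt.RegularWindows
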